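import Pool.Agent.Helper54.DG.Translate

/-!
# Noncommutative mixed motives of smooth dg categories are not always Schur-finite

Problem MP_b5fdc6_ag.  All definitions used in the statement are in
`Pool.Agent.Helper54.DG.Defs` (dg categories, dg functors, Morita equivalences, dg algebras,
dg bimodules, smoothness) and `Pool.Agent.Helper54.NCM.Schur` (action of the symmetric groups on
tensor powers, Young symmetrizers, Schur-finiteness).
-/

open CategoryTheory MonoidalCategory Limits

open Pool.Agent.Helper54
open Pool.Agent.Helper54.NCM (IsSchurFinite)

namespace Pool.Agent.Results.MP_b5fdc6_ag.NotSchurFinite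

universe v u

/-- Let `k` be a field of characteristic different from `2` (for instance the perfect field `ℚ`).
There is a smooth dg algebra `A` over `k` such that, for every `ℚ`-linear symmetric monoidal
category `C` with nonzero unit object and every functor `U` from the category of small `k`-linear
dg categories to `C` which preserves finite coproducts, inverts Morita equivalences and satisfies
`U(k) ≅ 𝟙`, the object `U(A)` is not Schur-finite.  The category `NMot(k)_ℚ` of noncommutative
mixed motives with its functor `U(-)_ℚ` is such a pair. -/
theorem result (k : Type) [Field k] (h2 : (2 : k) ≠ 0) :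
    ∃ A : DG.DGAlg k, A.IsSmooth ∧
      ∀ (C : Type u) [Category.{v} C] [Preadditive C] [Linear ℚ C] [MonoidalCategory C]
        [SymmetricCategory C] [MonoidalPreadditive C] [MonoidalLinear ℚ C]
        (U : DG.DGCat k ⥤ C) [PreservesFiniteCoproducts U],
        (∀ {B B' : DG.DGCat k} (F : B ⟶ B'), DG.IsMoritaEquiv F → IsIso (U.map F)) →
        Nonempty (U.obj (DG.DGAlg.base k).toDGCat ≅ 𝟙_ C) → ¬ IsZero (𝟙_ C) →
        ¬ IsSchurFinite (U.obj A.toDGCat) :=
  DG.main k h2

end Pool.Agent.Results.MP_b5fdc6_ag.NotSchurFinite
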